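import Mathlib

/-!
# Connected sets and depth-first leaves
-/

set_option autoImplicit false

open Finset
open scoped Classical

namespace H44BP

variable {V : Type} (G : SimpleGraph V)

/-- Connectivity of the induced subgraph on `S`, in terms of cuts. -/
def Conn (S : Finset V) : Prop :=
  S.Nonempty ∧ ∀ T : Finset V, T ⊆ S → T.Nonempty → T ≠ S → ∃ u ∈ T, ∃ v ∈ S \ T, G.Adj u v

/-- `C` has no edges to the rest of `S`. -/
def Closed (S C : Finset V) : Prop := ∀ u ∈ C, ∀ v ∈ S \ C, ¬ G.Adj u v

lemma exists_component (S : Finset V) (v : V) (hv : v ∈ S) :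
    ∃ C : Finset V, C ⊆ S ∧ v ∈ C ∧ Conn G C ∧ Closed G S C := by
  classical
  -- minimal closed subset containing `v`
  have hne : (S.powerset.filter (fun C => v ∈ C ∧ Closed G S C)).Nonempty := by
    refine ⟨S, ?_⟩
    simp only [mem_filter, mem_powerset]
    refine ⟨Finset.Subset.refl S, hv, ?_⟩
    intro u _ w hw
    simp at hw
  obtain ⟨C, hC, hmin⟩ := Finset.exists_min_image _ Finset.card hne
  simp only [mem_filter, mem_powerset] at hC hmin
  obtain ⟨hCS, hvC, hcl⟩ := hC
  refine ⟨C, hCS, hvC, ⟨⟨v, hvC⟩, ?_⟩, hcl⟩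
  intro T hT hTne hTneq
  by_contra hcon
  push Not at hcon
  by_cases hvT : v ∈ T
  · have hclT : Closed G S T := by
      intro u hu w hw hadj
      rw [mem_sdiff] at hw
      by_cases hwC : w ∈ C
      · exact hcon u hu w (by rw [mem_sdiff]; exact ⟨hwC, hw.2⟩) hadj
      · exact hcl u (hT hu) w (by rw [mem_sdiff]; exact ⟨hw.1, hwC⟩) hadj
    have h1 := hmin T ⟨hT.trans hCS, hvT, hclT⟩
    have h2 := Finset.card_lt_card (Finset.ssubset_iff_subset_ne.2 ⟨hT, hTneq⟩)
    omega
  · have hclT : Closed G S (C \ T) := by
      intro u hu w hw hadj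
      rw [mem_sdiff] at hu hw
      by_cases hwC : w ∈ C
      · have hwT : w ∈ T := by
          by_contra h; exact hw.2 (by rw [mem_sdiff]; exact ⟨hwC, h⟩)
        exact hcon w hwT u (by rw [mem_sdiff]; exact hu) hadj.symm
      · exact hcl u hu.1 w (by rw [mem_sdiff]; exact ⟨hw.1, hwC⟩) hadj
    have h1 := hmin (C \ T) ⟨(Finset.sdiff_subset).trans hCS, by rw [mem_sdiff]; exact ⟨hvC, hvT⟩, hclT⟩
    obtain ⟨t, ht⟩ := hTne
    have h2 : (C \ T).card < C.card := by
      apply Finset.card_lt_card
      rw [Finset.ssubset_iff_of_subset Finset.sdiff_subset]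
      exact ⟨t, hT ht, by simp [ht]⟩
    omega

variable (side : V → Bool)

/-- number of vertices of side `σ` minus the number of the others -/
def cnt (σ : Bool) (S : Finset V) : ℤ := ∑ v ∈ S, if side v = σ then (1:ℤ) else -1

lemma cnt_sdiff (σ : Bool) (S C : Finset V) (h : C ⊆ S) :
    cnt side σ (S \ C) = cnt side σ S - cnt side σ C := by
  unfold cnt
  rw [← Finset.sum_sdiff h]; ring

lemma cnt_erase (σ : Bool) (S : Finset V) (r : V) (h : r ∈ S) :
    cnt side σ (S.erase r) = cnt side σ S - (if side r = σ then (1:ℤ) else -1) := by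
  unfold cnt
  rw [← Finset.add_sum_erase S _ h]; ring

lemma peel (σ : Bool) (t : ℤ) (ht : t ≤ 1) : ∀ (N : ℕ) (S : Finset V), S.card = N → S.Nonempty →
    t ≤ cnt side σ S → ∃ C : Finset V, C ⊆ S ∧ Conn G C ∧ Closed G S C ∧ t ≤ cnt side σ C := by
  classical
  intro N
  induction N using Nat.strong_induction_on with
  | _ N ih =>
    intro S hN hne hcnt
    obtain ⟨v, hv⟩ := hne
    obtain ⟨C, hCS, hvC, hconn, hcl⟩ := exists_component G S v hv
    by_cases hc : t ≤ cnt side σ C
    · exact ⟨C, hCS, hconn, hcl, hc⟩
    · push Not at hc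
      have h1 : 1 ≤ cnt side σ (S \ C) := by rw [cnt_sdiff side σ S C hCS]; omega
      have hne' : (S \ C).Nonempty := by
        rw [Finset.nonempty_iff_ne_empty]
        intro h
        rw [h] at h1
        simp [cnt] at h1
      have hlt : (S \ C).card < N := by
        rw [← hN]
        apply Finset.card_lt_card
        rw [Finset.ssubset_iff_of_subset Finset.sdiff_subset]
        exact ⟨v, hv, by simp [hvC]⟩
      obtain ⟨C', hC', hconn', hcl', hcnt'⟩ := ih _ hlt (S \ C) rfl hne' (by omega)
      refine ⟨C', hC'.trans Finset.sdiff_subset, hconn', ?_, hcnt'⟩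
      intro u hu w hw hadj
      rw [mem_sdiff] at hw
      have huS := hC' hu
      rw [mem_sdiff] at huS
      by_cases hwC : w ∈ C
      · exact hcl w hwC u (by rw [mem_sdiff]; exact huS) hadj.symm
      · exact hcl' u hu w (by rw [mem_sdiff, mem_sdiff]; exact ⟨⟨hw.1, hwC⟩, hw.2⟩) hadj

/-- Union of two connected sets joined by an edge. -/
lemma Conn_union (X Y : Finset V) (hX : Conn G X) (hY : Conn G Y) (x y : V) (hx : x ∈ X) (hy : y ∈ Y)
    (hxy : G.Adj x y) : Conn G (X ∪ Y) := by
  classical
  refine ⟨⟨x, by simp [hx]⟩, ?_⟩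
  intro T hT hTne hTneq
  by_contra hcon
  push Not at hcon
  -- each of X, Y is inside T or disjoint from T
  have key : ∀ Z : Finset V, Conn G Z → Z ⊆ X ∪ Y → (Z ⊆ T ∨ Disjoint Z T) := by
    intro Z hZ hZs
    by_contra h
    push Not at h
    obtain ⟨h1, h2⟩ := h
    rw [Finset.not_disjoint_iff] at h2
    obtain ⟨z, hzZ, hzT⟩ := h2
    obtain ⟨u, hu, w, hw, hadj⟩ := hZ.2 (Z ∩ T) Finset.inter_subset_left ⟨z, by simp [hzZ, hzT]⟩
      (by intro h; exact h1 (by rw [← h]; exact Finset.inter_subset_right))
    rw [mem_inter] at hu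
    rw [mem_sdiff, mem_inter] at hw
    refine hcon u hu.2 w ?_ hadj
    rw [mem_sdiff]
    exact ⟨hZs hw.1, fun h => hw.2 ⟨hw.1, h⟩⟩
  rcases key X hX Finset.subset_union_left with h1 | h1 <;>
    rcases key Y hY Finset.subset_union_right with h2 | h2
  · exact hTneq (Finset.Subset.antisymm hT (Finset.union_subset h1 h2))
  · refine hcon x (h1 hx) y ?_ hxy
    rw [mem_sdiff]
    exact ⟨by simp [hy], fun h => (Finset.disjoint_left.1 h2 hy) h⟩
  · refine hcon y (h2 hy) x ?_ hxy.symm
    rw [mem_sdiff]
    exact ⟨by simp [hx], fun h => (Finset.disjoint_left.1 h1 hx) h⟩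
  · obtain ⟨t, ht⟩ := hTne
    have := hT ht
    rw [mem_union] at this
    rcases this with h | h
    · exact (Finset.disjoint_left.1 h1 h) ht
    · exact (Finset.disjoint_left.1 h2 h) ht

/-- A path, as a function on the naturals, of `l` vertices, inside `W`. -/
def IsPath (W : Finset V) (l : ℕ) (p : ℕ → V) : Prop :=
  (∀ i, i < l → p i ∈ W) ∧ (∀ i j, i < l → j < l → p i = p j → i = j) ∧
    (∀ i, i + 1 < l → G.Adj (p i) (p (i+1)))

/-- Depth-first leaf lemma. -/
lemma dfs (hside : ∀ u v, G.Adj u v → side u ≠ side v) (σ : Bool) : ∀ (N : ℕ) (S : Finset V) (r : V),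
    S.card = N → Conn G S → r ∈ S → (if side r = σ then (1:ℤ) else 0) ≤ cnt side σ S →
    ∃ (h : ℕ) (z : ℕ → V), 1 ≤ h ∧ IsPath G S h z ∧ z 0 = r ∧ side (z (h-1)) = σ ∧
      (∀ u ∈ S, G.Adj (z (h-1)) u → ∃ i, i < h ∧ z i = u) ∧
      (S = {z (h-1)} ∨ (Conn G (S.erase (z (h-1))) ∧ z (h-1) ≠ r)) := by
  classical
  intro N
  induction N using Nat.strong_induction_on with
  | _ N ih =>
    intro S r hN hS hr hcond
    by_cases hsing : S = {r}
    · have hσ : side r = σ := by
        by_contra h
        rw [hsing] at hcond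
        simp [cnt, h] at hcond
      refine ⟨1, fun _ => r, le_refl _, ⟨?_, ?_, ?_⟩, rfl, hσ, ?_, Or.inl hsing⟩
      · intro i _; exact hr
      · intro i j hi hj _; omega
      · intro i hi; omega
      · intro u hu hadj
        rw [hsing, mem_singleton] at hu
        subst hu
        exact absurd hadj (G.loopless.irrefl _)
    · -- remove the root
      have hne : (S.erase r).Nonempty := by
        rw [Finset.nonempty_iff_ne_empty]
        intro h
        rw [Finset.erase_eq_empty_iff] at h
        rcases h with h | h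
        · rw [h] at hr; simp at hr
        · exact hsing h
      set t : ℤ := if side r = σ then 0 else 1 with ht
      have hcnt : t ≤ cnt side σ (S.erase r) := by
        rw [cnt_erase side σ S r hr, ht]
        split_ifs at hcond ⊢ <;> omega
      have ht1 : t ≤ 1 := by rw [ht]; split_ifs <;> norm_num
      obtain ⟨C, hCS, hconn, hcl, hcC⟩ := peel G side σ t ht1 _ (S.erase r) rfl hne hcnt
      have hCS' : C ⊆ S := hCS.trans (Finset.erase_subset _ _)
      have hrC : r ∉ C := fun h => by have := hCS h; simp at this
      -- an edge from C to r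
      obtain ⟨r', hr', w, hw, hadj⟩ := hS.2 C hCS' hconn.1 (by rintro rfl; exact hrC hr)
      rw [mem_sdiff] at hw
      have hwr : w = r := by
        by_contra hne'
        exact hcl r' hr' w (by rw [mem_sdiff, mem_erase]; exact ⟨⟨hne', hw.1⟩, hw.2⟩) hadj
      subst hwr
      have hlt : C.card < N := by
        rw [← hN]
        apply Finset.card_lt_card
        rw [Finset.ssubset_iff_of_subset hCS']
        exact ⟨w, hr, hrC⟩
      have hcond' : (if side r' = σ then (1:ℤ) else 0) ≤ cnt side σ C := by
        refine le_trans ?_ hcC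
        rw [ht]
        have := hside _ _ hadj
        by_cases h1 : side w = σ
        · have h2 : side r' ≠ σ := by rw [← h1]; exact this
          simp [h1, h2]
        · have h2 : side r' = σ := by
            revert h1 this; cases side w <;> cases side r' <;> cases σ <;> simp
          simp [h1, h2]
      obtain ⟨h, z, h1, hz, hz0, hzσ, hznb, hzc⟩ := ih _ hlt C r' rfl hconn hr' hcond'
      set a := z (h-1) with ha
      have haC : a ∈ C := hz.1 (h-1) (by omega)
      refine ⟨h+1, fun i => if i = 0 then w else z (i-1), by omega, ⟨?_, ?_, ?_⟩, by simp, ?_, ?_, ?_⟩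
      · intro i hi
        by_cases h0 : i = 0
        · simp [h0, hr]
        · simp only [h0, if_false]; exact hCS' (hz.1 _ (by omega))
      · intro i j hi hj hij
        by_cases h0 : i = 0 <;> by_cases h0' : j = 0
        · omega
        · simp only [h0, h0', if_true, if_false] at hij
          exact absurd (hij ▸ hz.1 (j-1) (by omega)) hrC
        · simp only [h0, h0', if_true, if_false] at hij
          exact absurd (hij ▸ hz.1 (i-1) (by omega)) hrC
        · simp only [h0, h0', if_false] at hij
          have := hz.2.1 _ _ (by omega) (by omega) hij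
          omega
      · intro i hi
        by_cases h0 : i = 0
        · subst h0
          simp only [if_true, Nat.zero_add, one_ne_zero, if_false, Nat.sub_self]
          rw [hz0]; exact hadj.symm
        · simp only [h0, if_false]
          have := hz.2.2 (i-1) (by omega)
          rw [show i - 1 + 1 = i by omega] at this
          simpa using this
      · have : h + 1 - 1 ≠ 0 := by omega
        simp only [this, if_false]
        rw [show h + 1 - 1 - 1 = h - 1 by omega]; exact hzσ
      · have : h + 1 - 1 ≠ 0 := by omega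
        simp only [this, if_false]
        rw [show h + 1 - 1 - 1 = h - 1 by omega]
        intro u hu hadju
        by_cases huw : u = w
        · exact ⟨0, by omega, by simp [huw]⟩
        · have huC : u ∈ C := by
            by_contra huC
            exact hcl a haC u (by rw [mem_sdiff, mem_erase]; exact ⟨⟨huw, hu⟩, huC⟩) hadju
          obtain ⟨i, hi, hi'⟩ := hznb u huC hadju
          exact ⟨i+1, by omega, by simp [hi']⟩
      · right
        have hh : h + 1 - 1 ≠ 0 := by omega
        simp only [hh, if_false]
        rw [show h + 1 - 1 - 1 = h - 1 by omega, ← ha]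
        have haw : a ≠ w := fun h => hrC (h ▸ haC)
        refine ⟨?_, haw⟩
        -- `S \ C` is connected
        have hSC : Conn G (S \ C) := by
          refine ⟨⟨w, by simp [hr, hrC]⟩, ?_⟩
          have main : ∀ T : Finset V, T ⊆ S \ C → T.Nonempty → w ∉ T →
              ∃ u ∈ T, ∃ v ∈ (S \ C) \ T, G.Adj u v := by
            intro T hT hTne hwT
            obtain ⟨u, hu, v, hv, huv⟩ := hS.2 T (hT.trans Finset.sdiff_subset) hTne
              (by rintro rfl; exact hwT hr)
            rw [mem_sdiff] at hv
            refine ⟨u, hu, v, ?_, huv⟩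
            have huS := hT hu
            rw [mem_sdiff] at huS
            rw [mem_sdiff, mem_sdiff]
            refine ⟨⟨hv.1, ?_⟩, hv.2⟩
            intro hvC
            refine hcl v hvC u ?_ huv.symm
            rw [mem_sdiff, mem_erase]
            exact ⟨⟨fun h => hwT (h ▸ hu), huS.1⟩, huS.2⟩
          intro T hT hTne hTneq
          by_cases hwT : w ∈ T
          · have hne2 : ((S \ C) \ T).Nonempty := by
              rw [Finset.sdiff_nonempty]
              intro h; exact hTneq (Finset.Subset.antisymm hT h)
            obtain ⟨u, hu, v, hv, huv⟩ := main ((S \ C) \ T) Finset.sdiff_subset hne2 (by simp [hwT])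
            refine ⟨v, ?_, u, hu, huv.symm⟩
            rw [mem_sdiff] at hv
            by_contra hvT
            exact hv.2 (by rw [mem_sdiff]; exact ⟨hv.1, hvT⟩)
          · exact main T hT hTne hwT
        rcases hzc with hzc | ⟨hzc, hne'⟩
        · have : S.erase a = S \ C := by rw [hzc]; ext u; simp [and_comm]
          rw [this]; exact hSC
        · have : S.erase a = (S \ C) ∪ (C.erase a) := by
            ext u
            simp only [mem_erase, mem_union, mem_sdiff]
            constructor
            · rintro ⟨h1, h2⟩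
              by_cases hu : u ∈ C
              · right; exact ⟨h1, hu⟩
              · left; exact ⟨h2, hu⟩
            · rintro (⟨h1, h2⟩ | ⟨h1, h2⟩)
              · exact ⟨fun h => h2 (h ▸ haC), h1⟩
              · exact ⟨h1, hCS' h2⟩
          rw [this]
          exact Conn_union G _ _ hSC hzc w r' (by simp [hr, hrC])
            (by rw [mem_erase]; exact ⟨hne'.symm, hr'⟩) hadj.symm

end H44BP
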