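import Pool.Agent.H44BP.Reduce

set_option autoImplicit false

open Finset
open scoped Classical

namespace H44BP

variable {V : Type} (G : SimpleGraph V) (side : V → Bool)

/-- the vertices of `W` on side `b` -/
noncomputable def sd (b : Bool) (W : Finset V) : Finset V := W.filter (fun v => side v = b)

lemma card_sd_erase (b : Bool) (W : Finset V) (v : V) (hv : v ∈ W) :
    (sd side b W).card = (sd side b (W.erase v)).card + (if side v = b then 1 else 0) := by
  unfold sd
  rw [Finset.filter_erase]
  split_ifs with h
  · rw [Finset.card_erase_add_one]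
    rw [mem_filter]; exact ⟨hv, h⟩
  · rw [Finset.erase_eq_of_notMem]
    · rfl
    · rw [mem_filter]; exact fun h' => h h'.2

lemma card_W (W : Finset V) : W.card = (sd side true W).card + (sd side false W).card := by
  unfold sd
  rw [← Finset.card_filter_add_card_filter_not (fun v => side v = true)]
  congr 2
  ext v
  simp

lemma cnt_zero (n : ℕ) (W : Finset V) (hn : ∀ b, (sd side b W).card = n) (τ : Bool) :
    cnt side τ W = 0 := by
  unfold cnt
  rw [← Finset.sum_filter_add_sum_filter_not W (fun v => side v = τ)]
  have h1 : ∑ v ∈ W.filter (fun v => side v = τ), (if side v = τ then (1:ℤ) else -1) = n := by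
    rw [Finset.sum_congr rfl (g := fun _ => (1:ℤ))]
    · rw [Finset.sum_const]; have := hn τ; unfold sd at this; rw [this]; simp
    · intro v hv; rw [mem_filter] at hv; simp [hv.2]
  have h2 : ∑ v ∈ W.filter (fun v => ¬ side v = τ), (if side v = τ then (1:ℤ) else -1) = -n := by
    rw [Finset.sum_congr rfl (g := fun _ => (-1:ℤ))]
    · rw [Finset.sum_const]
      have := hn (!τ); unfold sd at this
      have h3 : W.filter (fun v => ¬ side v = τ) = W.filter (fun v => side v = !τ) := by
        ext v; simp only [mem_filter]
        cases side v <;> cases τ <;> simp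
      rw [h3, this]; simp
    · intro v hv; rw [mem_filter] at hv; simp [hv.2]
  rw [h1, h2]; ring

/-- The reduction step. -/
theorem reduce (hside : ∀ u v, G.Adj u v → side u ≠ side v) (m n : ℕ) (hm : 1 ≤ m) (W : Finset V)
    (hW : Conn G W) (hn : ∀ b, (sd side b W).card = n) (hmn : m + 1 ≤ n)
    (hP : ∀ (l : ℕ) (p : ℕ → V), IsPath G W l p → l ≤ 2*m+1) :
    ∃ x ∈ W, ∃ a ∈ W, side x ≠ side a ∧ ¬ G.Adj x a ∧ dg G W x + dg G W a ≤ m ∧
      Conn G ((W.erase x).erase a) := by
  obtain ⟨l, p, hl, hp⟩ := exists_longest G W hW.1
  have hWc : W.card = 2*n := by rw [card_W side W, hn, hn]; ring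
  have hl2 := hP l p hp.1
  rcases Nat.even_or_odd' l with ⟨c, hc | hc⟩
  · subst hc
    obtain ⟨h1, h2, h3, h4⟩ := reduce_even G side hside W hW c (by omega) p hp (by omega)
    exact ⟨p 0, hp.1.1 0 (by omega), p (2*c-1), hp.1.1 _ (by omega), h1, h2, by omega, h4⟩
  · subst hc
    have hc1 : 1 ≤ c := by
      by_contra hcon
      have hc0 : c = 0 := by omega
      subst hc0
      obtain ⟨k0, hk0, w, hw, hwp, hadj⟩ := leaving G W hW _ p hp.1 (by omega) (by omega)
      have hk : k0 = 0 := by omega
      subst hk
      have P := IsPath_glue G W 1 1 (fun _ => p 0) (fun _ => w) (IsPath_single G W _ (hp.1.1 0 (by omega)))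
        (IsPath_single G W w hw) (fun i j _ _ => hwp 0 (by omega)) (fun _ _ => hadj)
      have := hp.2 _ _ P
      omega
    obtain ⟨a, ha, h1, h2, h3, h4⟩ := reduce_odd G side hside W hW p (cnt_zero side n W hn _) c hc1 hp (by omega)
    exact ⟨p 0, hp.1.1 0 (by omega), a, ha, h1.symm, h2, by omega, h4⟩

/-- the number of edges inside `W` (for a bipartite graph) -/
noncomputable def eS (W : Finset V) : ℕ := ∑ u ∈ sd side true W, dg G W u

lemma dg_erase (W : Finset V) (u v : V) (hv : v ∈ W) :
    dg G W u = dg G (W.erase v) u + (if G.Adj u v then 1 else 0) := by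
  unfold dg
  rw [Finset.filter_erase]
  split_ifs with h
  · rw [Finset.card_erase_add_one]
    rw [mem_filter]; exact ⟨hv, h⟩
  · rw [Finset.erase_eq_of_notMem]
    · rfl
    · rw [mem_filter]; exact fun h' => h h'.2

lemma dg_le (hside : ∀ u v, G.Adj u v → side u ≠ side v) (W : Finset V) (v : V) :
    dg G W v ≤ (sd side (!side v) W).card := by
  unfold dg sd
  apply card_le_card
  intro u hu
  rw [mem_filter] at hu ⊢
  refine ⟨hu.1, ?_⟩
  have := hside _ _ hu.2
  revert this
  cases side v <;> cases side u <;> simp

lemma eS_erase (hside : ∀ u v, G.Adj u v → side u ≠ side v) (W : Finset V) (v : V) (hv : v ∈ W) :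
    eS G side W = eS G side (W.erase v) + dg G W v := by
  unfold eS
  by_cases hb : side v = true
  · have h1 : sd side true W = insert v (sd side true (W.erase v)) := by
      unfold sd
      rw [Finset.filter_erase, Finset.insert_erase]
      rw [mem_filter]; exact ⟨hv, hb⟩
    rw [h1, Finset.sum_insert (by unfold sd; simp)]
    rw [Nat.add_comm]
    congr 1
    apply Finset.sum_congr rfl
    intro u hu
    unfold sd at hu
    rw [mem_filter] at hu
    rw [dg_erase G W u v hv]
    have : ¬ G.Adj u v := fun h => hside _ _ h (by rw [hu.2, hb])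
    simp [this]
  · have hb' : side v = false := by cases h : side v <;> simp_all
    have h1 : sd side true W = sd side true (W.erase v) := by
      unfold sd
      rw [Finset.filter_erase, Finset.erase_eq_of_notMem]
      rw [mem_filter]; exact fun h => hb h.2
    rw [← h1, Finset.sum_congr rfl (fun u _ => dg_erase G W u v hv), Finset.sum_add_distrib]
    congr 1
    unfold dg
    rw [← Finset.card_filter]
    congr 1
    unfold sd
    ext u
    simp only [mem_filter]
    constructor
    · rintro ⟨⟨h2, _⟩, h4⟩
      exact ⟨h2, h4.symm⟩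
    · rintro ⟨h2, h3⟩
      refine ⟨⟨h2, ?_⟩, h3.symm⟩
      have := hside _ _ h3
      rw [hb'] at this
      cases h5 : side u <;> simp_all

lemma eS_le (hside : ∀ u v, G.Adj u v → side u ≠ side v) (W : Finset V) :
    eS G side W ≤ (sd side true W).card * (sd side false W).card := by
  unfold eS
  calc ∑ u ∈ sd side true W, dg G W u ≤ ∑ u ∈ sd side true W, (sd side false W).card := by
        apply Finset.sum_le_sum
        intro u hu
        unfold sd at hu
        rw [mem_filter] at hu
        have := dg_le G side hside W u
        rw [hu.2] at this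
        exact this
    _ = _ := by rw [Finset.sum_const, smul_eq_mul]

lemma card_two_erase (W : Finset V) (n : ℕ) (hn : ∀ b, (sd side b W).card = n + 1) (x a : V)
    (hx : x ∈ W) (ha : a ∈ W) (hxa : side x ≠ side a) :
    ∀ b, (sd side b ((W.erase x).erase a)).card = n := by
  intro b
  have hne : a ≠ x := fun h => hxa (by rw [h])
  have h1 := card_sd_erase side b W x hx
  have h2 := card_sd_erase side b (W.erase x) a (by rw [mem_erase]; exact ⟨hne, ha⟩)
  have h3 := hn b
  rw [h1, h2] at h3
  revert h3 hxa
  cases side x <;> cases side a <;> cases b <;> simp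

lemma eS_two_erase (hside : ∀ u v, G.Adj u v → side u ≠ side v) (W : Finset V) (x a : V)
    (hx : x ∈ W) (ha : a ∈ W) (hxa : side x ≠ side a) :
    eS G side W + (if G.Adj x a then 1 else 0) =
      eS G side ((W.erase x).erase a) + dg G W x + dg G W a := by
  have hne : a ≠ x := fun h => hxa (by rw [h])
  rw [eS_erase G side hside W x hx,
    eS_erase G side hside (W.erase x) a (by rw [mem_erase]; exact ⟨hne, ha⟩),
    dg_erase G W a x hx]
  have : G.Adj a x ↔ G.Adj x a := ⟨fun h => h.symm, fun h => h.symm⟩
  simp only [this]
  ring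

theorem upper (hside : ∀ u v, G.Adj u v → side u ≠ side v) (m : ℕ) (hm : 1 ≤ m) :
    ∀ (n : ℕ) (W : Finset V), Conn G W → (∀ b, (sd side b W).card = n) →
    (∀ (l : ℕ) (p : ℕ → V), IsPath G W l p → l ≤ 2*m+1) → eS G side W ≤ m * n := by
  intro n
  induction n with
  | zero =>
    intro W _ hn _
    have := eS_le G side hside W
    rw [hn, hn] at this
    simpa using this
  | succ n ih =>
    intro W hW hn hP
    by_cases hmn : m + 1 ≤ n + 1
    · obtain ⟨x, hx, a, ha, hxa, hnadj, hdeg, hconn⟩ := reduce G side hside m (n+1) hm W hW hn hmn hP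
      have hcard := card_two_erase side W n hn x a hx ha hxa
      have h1 := ih _ hconn hcard (fun l p hp => hP l p
        (IsPath_mono G _ W ((Finset.erase_subset _ _).trans (Finset.erase_subset _ _)) l p hp))
      have h2 := eS_two_erase G side hside W x a hx ha hxa
      simp only [hnadj, if_false] at h2
      rw [Nat.mul_succ]
      omega
    · have := eS_le G side hside W
      rw [hn, hn] at this
      refine this.trans ?_
      exact Nat.mul_le_mul_right _ (by omega)

end H44BP
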