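import Pool.Agent.H44BP.Count

set_option autoImplicit false

open Finset
open scoped Classical

namespace H44BP

variable {V : Type} (G : SimpleGraph V) (side : V → Bool)

lemma eq_not_of_ne {a b : Bool} (h : a ≠ b) : a = !b := by cases a <;> cases b <;> simp_all

lemma adj_of_full (hside : ∀ u v, G.Adj u v → side u ≠ side v) (W : Finset V) (m : ℕ)
    (hn : ∀ b, (sd side b W).card = m) (u w : V) (hw : w ∈ W) (huw : side u ≠ side w)
    (hd : m ≤ dg G W u) : G.Adj u w := by
  have hsub : W.filter (fun v => G.Adj u v) ⊆ sd side (!side u) W := by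
    unfold sd
    intro v hv
    rw [mem_filter] at hv ⊢
    exact ⟨hv.1, eq_not_of_ne (hside _ _ hv.2).symm⟩
  have heq := Finset.eq_of_subset_of_card_le hsub (by rw [hn]; exact hd)
  have : w ∈ sd side (!side u) W := by
    unfold sd; rw [mem_filter]; exact ⟨hw, eq_not_of_ne huw.symm⟩
  rw [← heq, mem_filter] at this
  exact this.2

lemma lt_of_nonadj (hside : ∀ u v, G.Adj u v → side u ≠ side v) (W : Finset V) (m : ℕ)
    (hn : ∀ b, (sd side b W).card = m) (u w : V) (hw : w ∈ W) (huw : side u ≠ side w)
    (h : ¬ G.Adj u w) : dg G W u < m := by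
  by_contra hcon
  exact h (adj_of_full G side hside W m hn u w hw huw (by omega))

/-- complete bipartite induced subgraph -/
def Compl (W : Finset V) : Prop := ∀ x ∈ W, ∀ y ∈ W, side x ≠ side y → G.Adj x y

lemma eS_compl (W : Finset V) (m : ℕ) (hn : ∀ b, (sd side b W).card = m)
    (hc : Compl G side W) : m * m ≤ eS G side W := by
  unfold eS
  calc m * m = ∑ u ∈ sd side true W, m := by rw [Finset.sum_const, hn, smul_eq_mul]
    _ ≤ ∑ u ∈ sd side true W, dg G W u := by
      apply Finset.sum_le_sum
      intro u hu
      unfold sd at hu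
      rw [mem_filter] at hu
      have : (sd side false W).card ≤ dg G W u := by
        unfold dg sd
        apply card_le_card
        intro v hv
        rw [mem_filter] at hv ⊢
        exact ⟨hv.1, hc u hu.1 v hv.1 (by rw [hu.2, hv.2]; simp)⟩
      rw [hn] at this
      exact this

/-- the statement that there is a Hamiltonian path from `u` to `v` -/
def HamP (W : Finset V) (m : ℕ) (u v : V) : Prop :=
  ∃ p : ℕ → V, IsPath G W (2*m) p ∧ p 0 = u ∧ p (2*m-1) = v

lemma HamP_symm (W : Finset V) (m : ℕ) (hm : 1 ≤ m) (u v : V) (h : HamP G W m u v) : HamP G W m v u := by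
  obtain ⟨p, hp, h0, h1⟩ := h
  refine ⟨fun k => p (2*m-1-k), IsPath_rev G W (2*m) p hp (2*m-1) (2*m) (by omega) (by omega), ?_, ?_⟩
  · simpa using h1
  · simp only [Nat.sub_self]; exact h0

lemma lace_step (hside : ∀ u v, G.Adj u v → side u ≠ side v) (m : ℕ) (hm : 1 ≤ m) (W : Finset V)
    (hn : ∀ b, (sd side b W).card = m + 1)
    (hcond : (m+1)*(m+1) ≤ eS G side W + (m + 1 - 2))
    (IH : ∀ W' : Finset V, (∀ b, (sd side b W').card = m) → m*m ≤ eS G side W' + (m-2) →
      ∀ u ∈ W', ∀ v ∈ W', side u ≠ side v → HamP G W' m u v)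
    (u v : V) (hu : u ∈ W) (hv : v ∈ W) (huv : side u ≠ side v)
    (hstart : dg G W u < m + 1 ∨ (∃ y ∈ W, y ≠ v ∧ side y = side v ∧ dg G W y < m + 1) ∨
      Compl G side W) : HamP G W (m+1) u v := by
  -- all degrees are at least two
  have hdeg2 : ∀ w ∈ W, 2 ≤ dg G W w := by
    intro w hw
    have h1 := eS_erase G side hside W w hw
    have h2 := eS_le G side hside (W.erase w)
    have h3 := card_sd_erase side true W w hw
    have h4 := card_sd_erase side false W w hw
    rw [hn] at h3 h4
    have h5 : (sd side true (W.erase w)).card * (sd side false (W.erase w)).card ≤ m * (m+1) := by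
      cases h6 : side w
      · simp only [h6] at h3 h4
        have e1 : (sd side true (W.erase w)).card = m + 1 := by simpa using h3.symm
        have e2 : (sd side false (W.erase w)).card = m := by simpa using h4.symm
        rw [e1, e2]; exact le_of_eq (by ring)
      · simp only [h6] at h3 h4
        have e1 : (sd side true (W.erase w)).card = m := by simpa using h3.symm
        have e2 : (sd side false (W.erase w)).card = m + 1 := by simpa using h4.symm
        rw [e1, e2]
    have h7 : (m+1)*(m+1) = m*(m+1) + (m+1) := by ring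
    omega
  have hdle : ∀ w, dg G W w ≤ m + 1 := by
    intro w
    have := dg_le G side hside W w
    rw [hn] at this
    exact this
  -- choose the second vertex
  obtain ⟨a, ha, hav, hua, hdd⟩ : ∃ a ∈ W, a ≠ v ∧ G.Adj u a ∧
      (dg G W u + dg G W a ≤ 2*m+1 ∨ Compl G side W) := by
    have hany : ∃ a ∈ W, a ≠ v ∧ G.Adj u a := by
      have h2 := hdeg2 u hu
      unfold dg at h2
      obtain ⟨a, ha, hav⟩ := Finset.exists_mem_ne (by omega : 1 < (W.filter (fun w => G.Adj u w)).card) v
      rw [mem_filter] at ha
      exact ⟨a, ha.1, hav, ha.2⟩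
    by_cases h1 : dg G W u < m + 1
    · obtain ⟨a, ha, hav, hua⟩ := hany
      refine ⟨a, ha, hav, hua, Or.inl ?_⟩
      have := hdle a
      omega
    · rcases hstart with h | ⟨y, hy, hyv, hys, hyd⟩ | h
      · exact absurd h h1
      · refine ⟨y, hy, hyv, ?_, Or.inl ?_⟩
        · exact adj_of_full G side hside W (m+1) hn u y hy (by rw [hys]; exact huv) (by omega)
        · have := hdle u
          omega
      · obtain ⟨a, ha, hav, hua⟩ := hany
        exact ⟨a, ha, hav, hua, Or.inr h⟩
  have hsa := hside _ _ hua
  have hau : a ≠ u := fun h => hsa (by rw [h])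
  -- the third vertex
  obtain ⟨b, hb, hbu, hab⟩ : ∃ b ∈ W, b ≠ u ∧ G.Adj a b := by
    have h2 := hdeg2 a ha
    unfold dg at h2
    obtain ⟨b, hb, hbu⟩ := Finset.exists_mem_ne (by omega : 1 < (W.filter (fun w => G.Adj a w)).card) u
    rw [mem_filter] at hb
    exact ⟨b, hb.1, hbu, hb.2⟩
  have hsb := hside _ _ hab
  have hba : b ≠ a := fun h => hsb (by rw [h])
  set W' := (W.erase u).erase a with hW'
  have hcard := card_two_erase side W m hn u a hu ha hsa
  have heS := eS_two_erase G side hside W u a hu ha hsa
  simp only [hua, if_true] at heS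
  have hcond' : m*m ≤ eS G side W' + (m-2) := by
    rcases hdd with hdd | hcompl
    · -- a missing edge is removed, so `m ≥ 2`
      rw [← hW'] at heS
      rcases Nat.lt_or_ge m 2 with h | h
      · have hm1 : m = 1 := by omega
        subst hm1
        omega
      · have e1 : (m+1)*(m+1) = m*m + 2*m + 1 := by ring
        omega
    · have : m * m ≤ eS G side W' := by
        apply eS_compl G side W' m hcard
        intro x hx y hy hxy
        exact hcompl x (mem_of_mem_erase (mem_of_mem_erase hx)) y
          (mem_of_mem_erase (mem_of_mem_erase hy)) hxy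
      omega
  have hbW : b ∈ W' := by rw [hW', mem_erase, mem_erase]; exact ⟨hba, hbu, hb⟩
  have hvW : v ∈ W' := by
    rw [hW', mem_erase, mem_erase]
    exact ⟨hav.symm, fun h => huv (by rw [h]), hv⟩
  have hsbv : side b ≠ side v := by
    revert huv hsa hsb
    cases side u <;> cases side v <;> cases side a <;> cases side b <;> simp
  obtain ⟨p, hp, h0, h1⟩ := IH W' hcard hcond' b hbW v hvW hsbv
  have hsubW : W' ⊆ W := (Finset.erase_subset _ _).trans (Finset.erase_subset _ _)
  have hpW := IsPath_mono G W' W hsubW _ _ hp
  have P1 := IsPath_glue G W 1 1 (fun _ => u) (fun _ => a) (IsPath_single G W u hu)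
    (IsPath_single G W a ha) (fun _ _ _ _ => hau.symm) (fun _ _ => hua)
  have hx : ∀ i, glue 1 (fun _ => u) (fun _ => a) i = u ∨ glue 1 (fun _ => u) (fun _ => a) i = a := by
    intro i; unfold glue; split_ifs <;> simp
  have P := IsPath_glue G W 2 (2*m) (glue 1 (fun _ => u) (fun _ => a)) p P1 hpW
    (by
      intro i j _ hj heq
      have hj' := hp.1 j hj
      rw [hW', mem_erase, mem_erase] at hj'
      rcases hx i with h | h
      · exact hj'.2.1 (by rw [← heq, h])
      · exact hj'.1 (by rw [← heq, h]))
    (by
      intro _ _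
      rw [h0]
      unfold glue
      simp only [show ¬ (2 - 1 < 1) by omega, if_false]
      exact hab)
  rw [show 2 + 2*m = 2*(m+1) by ring] at P
  refine ⟨_, P, ?_, ?_⟩
  · unfold glue; simp
  · unfold glue
    simp only [show ¬ (2*(m+1)-1 < 2) by omega, if_false]
    rw [show 2*(m+1)-1-2 = 2*m-1 by omega]
    exact h1

theorem lace (hside : ∀ u v, G.Adj u v → side u ≠ side v) : ∀ (m : ℕ), 1 ≤ m → ∀ (W : Finset V),
    (∀ b, (sd side b W).card = m) → m*m ≤ eS G side W + (m-2) →
    ∀ u ∈ W, ∀ v ∈ W, side u ≠ side v → HamP G W m u v := by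
  intro m hm
  induction m, hm using Nat.le_induction with
  | base =>
    intro W hn hcond u hu v hv huv
    have hadj : G.Adj u v := by
      by_contra hcon
      have h0 : eS G side W = 0 := by
        unfold eS
        apply Finset.sum_eq_zero
        intro x hx
        have hxu : x = u ∨ x = v := by
          have hx' := hx
          unfold sd at hx'
          rw [mem_filter] at hx'
          by_cases hs : side u = true
          · left
            have h1 := Finset.card_le_one.1 (le_of_eq (hn true)) x hx u
              (by unfold sd; rw [mem_filter]; exact ⟨hu, hs⟩)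
            exact h1
          · right
            have hs' : side v = true := by
              revert huv hs; cases side u <;> cases side v <;> simp
            have h1 := Finset.card_le_one.1 (le_of_eq (hn true)) x hx v
              (by unfold sd; rw [mem_filter]; exact ⟨hv, hs'⟩)
            exact h1
        rcases hxu with rfl | rfl
        · have := lt_of_nonadj G side hside W 1 hn x v hv huv hcon
          omega
        · have := lt_of_nonadj G side hside W 1 hn x u hu huv.symm (fun h => hcon h.symm)
          omega
      rw [h0] at hcond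
      omega
    have hne : u ≠ v := fun h => huv (by rw [h])
    have P := IsPath_glue G W 1 1 (fun _ => u) (fun _ => v) (IsPath_single G W u hu)
      (IsPath_single G W v hv) (fun _ _ _ _ => hne) (fun _ _ => hadj)
    exact ⟨_, P, by unfold glue; simp, by unfold glue; simp⟩
  | succ m hm ih =>
    intro W hn hcond u hu v hv huv
    by_cases hc : Compl G side W
    · exact lace_step G side hside m hm W hn hcond ih u v hu hv huv (Or.inr (Or.inr hc))
    · unfold Compl at hc
      push Not at hc
      obtain ⟨x, hx, y, hy, hxy, hnadj⟩ := hc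
      -- choose the vertex on the side of `v`
      obtain ⟨y', hy', hs', hd'⟩ : ∃ y' ∈ W, side y' = side v ∧ dg G W y' < m + 1 := by
        by_cases hs : side y = side v
        · exact ⟨y, hy, hs, lt_of_nonadj G side hside W (m+1) hn y x hx hxy.symm (fun h => hnadj h.symm)⟩
        · refine ⟨x, hx, ?_, lt_of_nonadj G side hside W (m+1) hn x y hy hxy hnadj⟩
          revert hs hxy
          cases side x <;> cases side y <;> cases side v <;> simp
      by_cases hyv : y' = v
      · subst hyv
        exact HamP_symm G W (m+1) (by omega) y' u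
          (lace_step G side hside m hm W hn hcond ih y' u hy' hu huv.symm (Or.inl hd'))
      · exact lace_step G side hside m hm W hn hcond ih u v hu hv huv
          (Or.inr (Or.inl ⟨y', hy', hyv, hs', hd'⟩))

/-- The sharp upper bound. -/
theorem upper2 (hside : ∀ u v, G.Adj u v → side u ≠ side v) (m : ℕ) (hm : 2 ≤ m) :
    ∀ (n : ℕ), m + 1 ≤ n → ∀ (W : Finset V), Conn G W → (∀ b, (sd side b W).card = n) →
    (∀ (l : ℕ) (p : ℕ → V), IsPath G W l p → l ≤ 2*m+1) → eS G side W ≤ m * (n - 1) + 1 := by
  intro n hn
  induction n, hn using Nat.le_induction with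
  | base =>
    intro W hW hn hP
    obtain ⟨x, hx, a, ha, hxa, hnadj, hdeg, hconn⟩ :=
      reduce G side hside m (m+1) (by omega) W hW hn (le_refl _) hP
    have hcard := card_two_erase side W m hn x a hx ha hxa
    have h2 := eS_two_erase G side hside W x a hx ha hxa
    simp only [hnadj, if_false] at h2
    by_contra hcon
    push Not at hcon
    rw [Nat.add_sub_cancel] at hcon
    set W' := (W.erase x).erase a with hW'
    have hax : a ≠ x := fun h => hxa (by rw [h])
    -- a neighbour of x in W' and a neighbour of a in W'
    have nb : ∀ s t : V, s ∈ W → t ∈ W → s ≠ t → ¬ G.Adj s t → ∃ w ∈ W, w ≠ s ∧ w ≠ t ∧ G.Adj s w := by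
      intro s t hs ht hst hnst
      obtain ⟨u, hu, w, hw, huw⟩ := hW.2 {s} (by simpa using hs) ⟨s, by simp⟩
        (by intro h; rw [← h] at ht; simp at ht; exact hst ht.symm)
      rw [mem_singleton] at hu
      subst hu
      rw [mem_sdiff, mem_singleton] at hw
      exact ⟨w, hw.1, hw.2, fun h => hnst (h ▸ huw), huw⟩
    obtain ⟨b, hb, hbx, hba, hxb⟩ := nb x a hx ha hax.symm hnadj
    obtain ⟨d, hd, hda, hdx, had⟩ := nb a x ha hx hax (fun h => hnadj h.symm)
    have hbW : b ∈ W' := by rw [hW', mem_erase, mem_erase]; exact ⟨hba, hbx, hb⟩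
    have hdW : d ∈ W' := by rw [hW', mem_erase, mem_erase]; exact ⟨hda, hdx, hd⟩
    have hs1 := hside _ _ hxb
    have hs2 := hside _ _ had
    have hsbd : side b ≠ side d := by
      revert hs1 hs2 hxa
      cases side x <;> cases side a <;> cases side b <;> cases side d <;> simp
    obtain ⟨p, hp, h0, h1⟩ := lace G side hside m (by omega) W' hcard (by omega) b hbW d hdW hsbd
    have hsubW : W' ⊆ W := (Finset.erase_subset _ _).trans (Finset.erase_subset _ _)
    have hpW := IsPath_mono G W' W hsubW _ _ hp
    have P1 := IsPath_glue G W 1 (2*m) (fun _ => x) p (IsPath_single G W x hx) hpW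
      (by
        intro i j _ hj heq
        have hj' := hp.1 j hj
        rw [hW', mem_erase, mem_erase] at hj'
        exact hj'.2.1 heq.symm)
      (by intro _ _; rw [h0]; exact hxb)
    have P := IsPath_glue G W (1+2*m) 1 _ (fun _ => a) P1 (IsPath_single G W a ha)
      (by
        intro i j hi _ heq
        unfold glue at heq
        split_ifs at heq with hc
        · exact hax heq.symm
        · have hj' := hp.1 (i-1) (by omega)
          rw [hW', mem_erase, mem_erase] at hj'
          exact hj'.1 heq)
      (by
        intro _ _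
        unfold glue
        simp only [show ¬ (1 + 2*m - 1 < 1) by omega, if_false]
        rw [show 1 + 2*m - 1 - 1 = 2*m-1 by omega, h1]
        exact had.symm)
    have := hP _ _ P
    omega
  | succ n hn0 ih =>
    intro W hW hn hP
    obtain ⟨x, hx, a, ha, hxa, hnadj, hdeg, hconn⟩ :=
      reduce G side hside m (n+1) (by omega) W hW hn (by omega) hP
    have hcard := card_two_erase side W n hn x a hx ha hxa
    have h1 := ih _ hconn hcard (fun l p hp => hP l p
      (IsPath_mono G _ W ((Finset.erase_subset _ _).trans (Finset.erase_subset _ _)) l p hp))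
    have h2 := eS_two_erase G side hside W x a hx ha hxa
    simp only [hnadj, if_false] at h2
    have h3 : m * (n + 1 - 1) = m * (n-1) + m := by
      obtain ⟨k, rfl⟩ : ∃ k, n = k + 1 := ⟨n-1, by omega⟩
      simp only [Nat.add_sub_cancel]; ring
    omega

end H44BP
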