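import Pool.Agent.H44BP.Conn

set_option autoImplicit false

open Finset
open scoped Classical

namespace H44BP

variable {V : Type} (G : SimpleGraph V)

def glue (l1 : ℕ) (p q : ℕ → V) : ℕ → V := fun k => if k < l1 then p k else q (k - l1)

lemma IsPath_glue (W : Finset V) (l1 l2 : ℕ) (p q : ℕ → V) (hp : IsPath G W l1 p)
    (hq : IsPath G W l2 q) (hdis : ∀ i j, i < l1 → j < l2 → p i ≠ q j)
    (hadj : 0 < l1 → 0 < l2 → G.Adj (p (l1-1)) (q 0)) : IsPath G W (l1+l2) (glue l1 p q) := by
  refine ⟨?_, ?_, ?_⟩
  · intro i hi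
    unfold glue
    split_ifs with h
    · exact hp.1 i h
    · exact hq.1 _ (by omega)
  · intro i j hi hj hij
    unfold glue at hij
    split_ifs at hij with h1 h2 h2
    · exact hp.2.1 i j h1 h2 hij
    · exact absurd hij (hdis i _ h1 (by omega))
    · exact absurd hij.symm (hdis j _ h2 (by omega))
    · have := hq.2.1 _ _ (by omega) (by omega) hij
      omega
  · intro i hi
    unfold glue
    by_cases h1 : i + 1 < l1
    · have h2 : i < l1 := by omega
      simp only [h1, h2, if_true]
      exact hp.2.2 i h1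
    · by_cases h2 : i < l1
      · have h3 : i + 1 - l1 = 0 := by omega
        have h4 : i = l1 - 1 := by omega
        simp only [h1, h2, if_true, if_false, h3]
        rw [h4]
        exact hadj (by omega) (by omega)
      · simp only [h1, h2, if_false]
        have := hq.2.2 (i - l1) (by omega)
        rw [show i - l1 + 1 = i + 1 - l1 by omega] at this
        exact this

lemma IsPath_seg (W : Finset V) (l : ℕ) (p : ℕ → V) (hp : IsPath G W l p) (i len : ℕ)
    (h : i + len ≤ l) : IsPath G W len (fun k => p (i + k)) := by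
  refine ⟨fun k hk => hp.1 _ (by omega), ?_, ?_⟩
  · intro a b ha hb hab
    have := hp.2.1 _ _ (by omega) (by omega) hab
    omega
  · intro k hk
    have := hp.2.2 (i+k) (by omega)
    exact this

lemma IsPath_rev (W : Finset V) (l : ℕ) (p : ℕ → V) (hp : IsPath G W l p) (i len : ℕ)
    (h : len ≤ i + 1) (hi : i < l) : IsPath G W len (fun k => p (i - k)) := by
  refine ⟨fun k hk => hp.1 _ (by omega), ?_, ?_⟩
  · intro a b ha hb hab
    have := hp.2.1 _ _ (by omega) (by omega) hab
    omega
  · intro k hk
    have := hp.2.2 (i-(k+1)) (by omega)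
    rw [show i - (k+1) + 1 = i - k by omega] at this
    exact this.symm

lemma IsPath_single (W : Finset V) (v : V) (hv : v ∈ W) : IsPath G W 1 (fun _ => v) :=
  ⟨fun _ _ => hv, fun i j hi hj _ => by omega, fun i hi => by omega⟩

lemma IsPath_mono (W W' : Finset V) (h : W ⊆ W') (l : ℕ) (p : ℕ → V) (hp : IsPath G W l p) :
    IsPath G W' l p := ⟨fun i hi => h (hp.1 i hi), hp.2.1, hp.2.2⟩

/-- `p` (with `l` vertices) is a longest path of `W`. -/
def Longest (W : Finset V) (l : ℕ) (p : ℕ → V) : Prop :=
  IsPath G W l p ∧ ∀ (l' : ℕ) (p' : ℕ → V), IsPath G W l' p' → l' ≤ l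

lemma path_card (W : Finset V) (l : ℕ) (p : ℕ → V) (hp : IsPath G W l p) : l ≤ W.card := by
  classical
  have h : ((range l).image p) ⊆ W := by
    intro v hv
    rw [mem_image] at hv
    obtain ⟨i, hi, rfl⟩ := hv
    exact hp.1 i (by simpa using hi)
  have h2 := Finset.card_le_card h
  rw [Finset.card_image_of_injOn, card_range] at h2
  · exact h2
  · intro i hi j hj hij
    simp only [coe_range, Set.mem_Iio] at hi hj
    exact hp.2.1 i j hi hj hij

lemma exists_longest (W : Finset V) (hW : W.Nonempty) : ∃ (l : ℕ) (p : ℕ → V), 1 ≤ l ∧ Longest G W l p := by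
  classical
  obtain ⟨v, hv⟩ := hW
  have hex : ∃ l, ∃ p : ℕ → V, IsPath G W l p := ⟨1, _, IsPath_single G W v hv⟩
  have hbd : ∀ l, (∃ p : ℕ → V, IsPath G W l p) → l ≤ W.card := by
    rintro l ⟨p, hp⟩; exact path_card G W l p hp
  set M := Nat.findGreatest (fun l => ∃ p : ℕ → V, IsPath G W l p) W.card with hM
  have h1 : ∃ p : ℕ → V, IsPath G W M p := by
    apply Nat.findGreatest_spec (P := fun l => ∃ p : ℕ → V, IsPath G W l p) (m := 1)
    · exact hbd 1 ⟨_, IsPath_single G W v hv⟩
    · exact ⟨_, IsPath_single G W v hv⟩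
  obtain ⟨p, hp⟩ := h1
  have hmax : ∀ (l' : ℕ) (p' : ℕ → V), IsPath G W l' p' → l' ≤ M := by
    intro l' p' hp'
    exact Nat.le_findGreatest (hbd l' ⟨p', hp'⟩) ⟨p', hp'⟩
  exact ⟨M, p, hmax 1 _ (IsPath_single G W v hv), hp, hmax⟩

/-- Neighbours of the first vertex of a longest path lie on the path. -/
lemma nbr_first (W : Finset V) (l : ℕ) (p : ℕ → V) (hp : Longest G W l p) (_hl : 1 ≤ l) (u : V)
    (hu : u ∈ W) (hadj : G.Adj (p 0) u) : ∃ i, i < l ∧ p i = u := by
  by_contra hcon
  push Not at hcon
  have h := IsPath_glue G W 1 l (fun _ => u) p (IsPath_single G W u hu) hp.1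
    (fun i j _ hj h => hcon j hj h.symm) (fun _ _ => hadj.symm)
  have := hp.2 _ _ h
  omega

lemma nbr_last (W : Finset V) (l : ℕ) (p : ℕ → V) (hp : Longest G W l p) (_hl : 1 ≤ l) (u : V)
    (hu : u ∈ W) (hadj : G.Adj (p (l-1)) u) : ∃ i, i < l ∧ p i = u := by
  by_contra hcon
  push Not at hcon
  have h := IsPath_glue G W l 1 p (fun _ => u) hp.1 (IsPath_single G W u hu)
    (fun i j hi _ h => hcon i hi h) (fun _ _ => hadj)
  have := hp.2 _ _ h
  omega

/-- A path `z` outside `p` attached to `p i'` at `z 0`; a neighbour `p (j+1)` of `p 0` with `j ≥ i'`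
satisfies `i' + h ≤ j`. -/
lemma excl (W : Finset V) (l : ℕ) (p : ℕ → V) (hp : Longest G W l p) (h : ℕ) (z : ℕ → V)
    (hz : IsPath G W h z) (hh : 1 ≤ h) (hdis : ∀ i j, i < l → j < h → p i ≠ z j) (i' j : ℕ)
    (hi' : i' < l) (hatt : G.Adj (z 0) (p i')) (hj : j + 1 < l) (hij : i' ≤ j)
    (hadj : G.Adj (p 0) (p (j+1))) : i' + h ≤ j := by
  have P1 := IsPath_rev G W h z hz (h-1) h (by omega) (by omega)
  have P2 := IsPath_rev G W l p hp.1 i' (i'+1) (by omega) hi'
  have P3 := IsPath_seg G W l p hp.1 (j+1) (l - (j+1)) (by omega)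
  have P12 := IsPath_glue G W h (i'+1) _ _ P1 P2
    (fun a b ha hb heq => hdis _ _ (by omega) (by omega) heq.symm)
    (fun _ _ => by
      have : h - 1 - (h - 1) = 0 := by omega
      simp only [this, Nat.sub_zero]; exact hatt)
  have P := IsPath_glue G W (h + (i'+1)) (l-(j+1)) _ _ P12 P3
    (by
      intro a b ha hb heq
      unfold glue at heq
      split_ifs at heq with hc
      · exact hdis _ _ (by omega) (by omega) heq.symm
      · have := hp.1.2.1 _ _ (by omega) (by omega) heq
        omega)
    (by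
      intro _ _
      unfold glue
      have h1 : ¬ (h + (i'+1) - 1 < h) := by omega
      have h2 : i' - (h + (i'+1) - 1 - h) = 0 := by omega
      simp only [h1, if_false, h2, Nat.add_zero]
      exact hadj)
  have := hp.2 _ _ P
  omega

lemma att_bound (W : Finset V) (l : ℕ) (p : ℕ → V) (hp : Longest G W l p) (h : ℕ) (z : ℕ → V)
    (hz : IsPath G W h z) (hdis : ∀ i j, i < l → j < h → p i ≠ z j) (i' : ℕ)
    (hi' : i' < l) (hatt : G.Adj (z 0) (p i')) : i' + 1 + h ≤ l := by
  have P1 := IsPath_seg G W l p hp.1 0 (i'+1) (by omega)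
  have P := IsPath_glue G W (i'+1) h _ z P1 hz
    (fun a b ha hb heq => hdis _ _ (by omega) hb heq)
    (fun _ _ => by
      have : 0 + (i' + 1 - 1) = i' := by omega
      simp only [this]; exact hatt.symm)
  exact hp.2 _ _ P

lemma through (W : Finset V) (l : ℕ) (p : ℕ → V) (hp : Longest G W l p) (h : ℕ) (z : ℕ → V)
    (hz : IsPath G W h z) (hh : 1 ≤ h) (hdis : ∀ i j, i < l → j < h → p i ≠ z j) (i i' : ℕ)
    (hi : i < l) (hi' : i' < l) (hatt : G.Adj (z 0) (p i')) (hatt' : G.Adj (z (h-1)) (p i)) :
    (i < i' → i + h + 1 ≤ i') ∧ (i' < i → i' + h + 1 ≤ i) := by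
  constructor
  · intro hlt
    have P1 := IsPath_seg G W l p hp.1 0 (i+1) (by omega)
    have P2 := IsPath_rev G W h z hz (h-1) h (by omega) (by omega)
    have P3 := IsPath_seg G W l p hp.1 i' (l - i') (by omega)
    have P12 := IsPath_glue G W (i+1) h _ _ P1 P2
      (fun a b ha hb heq => hdis _ _ (by omega) (by omega) heq)
      (fun _ _ => by
        have : 0 + (i + 1 - 1) = i := by omega
        simp only [this, Nat.sub_zero]; exact hatt'.symm)
    have P := IsPath_glue G W (i+1+h) (l-i') _ _ P12 P3
      (by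
        intro a b ha hb heq
        unfold glue at heq
        split_ifs at heq with hc
        · have := hp.1.2.1 _ _ (by omega) (by omega) heq
          omega
        · exact hdis _ _ (by omega) (by omega) heq.symm)
      (by
        intro _ _
        unfold glue
        have h1 : ¬ (i + 1 + h - 1 < i + 1) := by omega
        have h2 : h - 1 - (i + 1 + h - 1 - (i + 1)) = 0 := by omega
        simp only [h1, if_false, h2, Nat.add_zero]
        exact hatt)
    have := hp.2 _ _ P
    omega
  · intro hlt
    have P1 := IsPath_seg G W l p hp.1 0 (i'+1) (by omega)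
    have P3 := IsPath_seg G W l p hp.1 i (l - i) (by omega)
    have P12 := IsPath_glue G W (i'+1) h _ z P1 hz
      (fun a b ha hb heq => hdis _ _ (by omega) (by omega) heq)
      (fun _ _ => by
        have : 0 + (i' + 1 - 1) = i' := by omega
        simp only [this]; exact hatt.symm)
    have P := IsPath_glue G W (i'+1+h) (l-i) _ _ P12 P3
      (by
        intro a b ha hb heq
        unfold glue at heq
        split_ifs at heq with hc
        · have := hp.1.2.1 _ _ (by omega) (by omega) heq
          omega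
        · exact hdis _ _ (by omega) (by omega) heq.symm)
      (by
        intro _ _
        unfold glue
        have h1 : ¬ (i' + 1 + h - 1 < i' + 1) := by omega
        have h2 : i' + 1 + h - 1 - (i' + 1) = h - 1 := by omega
        simp only [h1, if_false, h2, Nat.add_zero]
        exact hatt')
    have := hp.2 _ _ P
    omega

/-- Crossing neighbours would give a cycle through all vertices of the path. -/
lemma crossing (W : Finset V) (l : ℕ) (p : ℕ → V) (hp : Longest G W l p) (i : ℕ) (hi : i + 1 < l)
    (h1 : G.Adj (p 0) (p (i+1))) (h2 : G.Adj (p (l-1)) (p i)) (w : V) (hw : w ∈ W)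
    (hwp : ∀ k, k < l → p k ≠ w) (k0 : ℕ) (hk0 : k0 < l) (hadj : G.Adj (p k0) w) : False := by
  -- the cycle
  set c : ℕ → V := glue (i+1) p (fun k => p (l - 1 - k)) with hc
  have hcp : IsPath G W ((i+1) + (l - (i+1))) c := by
    apply IsPath_glue G W (i+1) (l-(i+1)) p _
    · have := IsPath_seg G W l p hp.1 0 (i+1) (by omega)
      simpa using this
    · exact IsPath_rev G W l p hp.1 (l-1) (l-(i+1)) (by omega) (by omega)
    · intro a b ha hb heq
      have := hp.1.2.1 _ _ (by omega) (by omega) heq
      omega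
    · intro _ _
      simp only [Nat.add_sub_cancel, Nat.sub_zero]
      exact h2.symm
  rw [show (i+1) + (l - (i+1)) = l by omega] at hcp
  have hclose : G.Adj (c (l-1)) (c 0) := by
    rw [hc]; unfold glue
    have e1 : ¬ (l - 1 < i + 1) := by omega
    have e2 : l - 1 - (l - 1 - (i+1)) = i + 1 := by omega
    have e3 : 0 < i + 1 := by omega
    simp only [e1, e3, if_true, if_false, e2]
    exact h1.symm
  -- position of p k0 on c
  obtain ⟨k1, hk1, hck1⟩ : ∃ k1, k1 < l ∧ c k1 = p k0 := by
    by_cases h : k0 < i + 1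
    · exact ⟨k0, hk0, by rw [hc]; unfold glue; simp only [h, if_true]⟩
    · refine ⟨i + 1 + (l - 1 - k0), by omega, ?_⟩
      rw [hc]; unfold glue
      have e1 : ¬ (i + 1 + (l - 1 - k0) < i + 1) := by omega
      have e2 : l - 1 - (i + 1 + (l - 1 - k0) - (i + 1)) = k0 := by omega
      simp only [e1, if_false, e2]
  have hcw : ∀ k, k < l → c k ≠ w := by
    intro k hk
    rw [hc]; unfold glue
    split_ifs with h
    · exact hwp k hk
    · exact hwp _ (by omega)
  have P1 := IsPath_single G W w hw
  have P2 := IsPath_seg G W l c hcp k1 (l - k1) (by omega)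
  have P3 := IsPath_seg G W l c hcp 0 k1 (by omega)
  have P12 := IsPath_glue G W 1 (l-k1) _ _ P1 P2
    (fun a b ha hb heq => hcw _ (by omega) heq.symm)
    (fun _ _ => by
      simp only [Nat.add_zero]
      rw [hck1]; exact hadj.symm)
  have P := IsPath_glue G W (1+(l-k1)) k1 _ _ P12 P3
    (by
      intro a b ha hb heq
      unfold glue at heq
      split_ifs at heq with hcc
      · exact hcw _ (by omega) heq.symm
      · have := hcp.2.1 _ _ (by omega) (by omega) heq
        omega)
    (by
      intro _ hk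
      unfold glue
      have e1 : ¬ (1 + (l - k1) - 1 < 1) := by omega
      have e2 : k1 + (1 + (l - k1) - 1 - 1) = l - 1 := by omega
      simp only [e1, if_false, e2, Nat.add_zero]
      exact hclose)
  have := hp.2 _ _ P
  omega

lemma side_path (side : V → Bool) (hside : ∀ u v, G.Adj u v → side u ≠ side v) (W : Finset V) (l : ℕ)
    (p : ℕ → V) (hp : IsPath G W l p) : ∀ i, i < l → (side (p i) = side (p 0) ↔ i % 2 = 0) := by
  intro i
  induction i with
  | zero => intro _; simp
  | succ i ih =>
    intro hi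
    have h1 := ih (by omega)
    have h2 := hside _ _ (hp.2.2 i hi)
    have h3 : (i + 1) % 2 = 0 ↔ ¬ (i % 2 = 0) := by omega
    rw [h3, ← h1]
    revert h2
    cases side (p i) <;> cases side (p (i+1)) <;> cases side (p 0) <;> simp

end H44BP
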