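import Pool.Agent.H44BP.Path

set_option autoImplicit false

open Finset
open scoped Classical

namespace H44BP

variable {V : Type} (G : SimpleGraph V)

/-- degree inside `W` -/
noncomputable def dg (W : Finset V) (v : V) : ℕ := (W.filter (fun u => G.Adj v u)).card

lemma cut_aux (W' T : Finset V) (hT : T ⊆ W') (hTne : T.Nonempty) (hTneq : T ≠ W') (p : ℕ → V)
    (s e : ℕ) (hint : ∀ i, s ≤ i → i < e → p i ∈ W')
    (hadj : ∀ i, s ≤ i → i + 1 < e → G.Adj (p i) (p (i+1)))
    (hno : ∀ u ∈ T, ∀ v ∈ W' \ T, ¬ G.Adj u v) :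
    ∃ Z : Finset V, Z ⊆ W' ∧ Z.Nonempty ∧ (∀ i, s ≤ i → i < e → p i ∉ Z) ∧
      (∀ u ∈ Z, ∀ v ∈ W' \ Z, ¬ G.Adj u v) := by
  by_cases h : ∃ i, s ≤ i ∧ i < e ∧ p i ∈ T
  · obtain ⟨i, hi1, hi2, hi3⟩ := h
    have up : ∀ d, i + d < e → p (i+d) ∈ T := by
      intro d
      induction d with
      | zero => intro _; exact hi3
      | succ d ih =>
        intro hd
        have h1 := ih (by omega)
        by_contra h2
        exact hno _ h1 (p (i+(d+1))) (by rw [mem_sdiff]; exact ⟨hint _ (by omega) hd, h2⟩)
          (hadj (i+d) (by omega) (by omega))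
    have down : ∀ d, s + d ≤ i → p (i-d) ∈ T := by
      intro d
      induction d with
      | zero => intro _; exact hi3
      | succ d ih =>
        intro hd
        have h1 := ih (by omega)
        by_contra h2
        have h3 := hadj (i-(d+1)) (by omega) (by omega)
        rw [show i - (d+1) + 1 = i - d by omega] at h3
        exact hno _ h1 (p (i-(d+1))) (by rw [mem_sdiff]; exact ⟨hint _ (by omega) (by omega), h2⟩) h3.symm
    have all : ∀ k, s ≤ k → k < e → p k ∈ T := by
      intro k hk1 hk2
      rcases le_total i k with hik | hik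
      · have := up (k-i) (by omega)
        rwa [show i + (k-i) = k by omega] at this
      · have := down (i-k) (by omega)
        rwa [show i - (i-k) = k by omega] at this
    refine ⟨W' \ T, Finset.sdiff_subset, ?_, ?_, ?_⟩
    · rw [Finset.sdiff_nonempty]
      intro h; exact hTneq (Finset.Subset.antisymm hT h)
    · intro k hk1 hk2 hk
      rw [mem_sdiff] at hk
      exact hk.2 (all k hk1 hk2)
    · intro u hu v hv huv
      rw [mem_sdiff] at hu
      rw [mem_sdiff, mem_sdiff] at hv
      have hvT : v ∈ T := by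
        by_contra h; exact hv.2 ⟨hv.1, h⟩
      exact hno v hvT u (by rw [mem_sdiff]; exact hu) huv.symm
  · push Not at h
    exact ⟨T, hT, hTne, fun i h1 h2 => h i h1 h2, hno⟩

lemma evens_card (c : ℕ) (S : Finset ℕ) (hS : ∀ i ∈ S, i < 2 * c ∧ i % 2 = 0) : S.card ≤ c := by
  have h : S.card ≤ (range c).card := by
    apply Finset.card_le_card_of_injOn (fun i => i / 2)
    · intro i hi
      have := hS i hi
      simp only [coe_range, Set.mem_Iio]
      omega
    · intro i hi j hj hij
      have h1 := hS i hi
      have h2 := hS j hj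
      simp only at hij
      omega
  simpa using h

lemma dg_first (W : Finset V) (l : ℕ) (p : ℕ → V) (hp : Longest G W l p) (hl : 1 ≤ l) :
    dg G W (p 0) ≤ ((range (l-1)).filter (fun i => G.Adj (p 0) (p (i+1)))).card := by
  unfold dg
  have hsub : W.filter (fun u => G.Adj (p 0) u) ⊆
      ((range (l-1)).filter (fun i => G.Adj (p 0) (p (i+1)))).image (fun i => p (i+1)) := by
    intro u hu
    rw [mem_filter] at hu
    obtain ⟨i, hi, rfl⟩ := nbr_first G W l p hp hl u hu.1 hu.2
    rw [mem_image]
    have hi0 : i ≠ 0 := by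
      rintro rfl
      exact absurd hu.2 (G.loopless.irrefl _)
    refine ⟨i-1, ?_, by rw [show i - 1 + 1 = i by omega]⟩
    rw [mem_filter, mem_range, show i - 1 + 1 = i by omega]
    exact ⟨by omega, hu.2⟩
  exact (card_le_card hsub).trans card_image_le

lemma dg_last (W : Finset V) (l : ℕ) (p : ℕ → V) (hp : Longest G W l p) (hl : 1 ≤ l) :
    dg G W (p (l-1)) ≤ ((range (l-1)).filter (fun i => G.Adj (p (l-1)) (p i))).card := by
  unfold dg
  have hsub : W.filter (fun u => G.Adj (p (l-1)) u) ⊆
      ((range (l-1)).filter (fun i => G.Adj (p (l-1)) (p i))).image p := by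
    intro u hu
    rw [mem_filter] at hu
    obtain ⟨i, hi, rfl⟩ := nbr_last G W l p hp hl u hu.1 hu.2
    rw [mem_image]
    have hi0 : i ≠ l - 1 := by
      rintro rfl
      exact absurd hu.2 (G.loopless.irrefl _)
    refine ⟨i, ?_, rfl⟩
    rw [mem_filter, mem_range]
    exact ⟨by omega, hu.2⟩
  exact (card_le_card hsub).trans card_image_le

/-- An edge leaving the path. -/
lemma leaving (W : Finset V) (hW : Conn G W) (l : ℕ) (p : ℕ → V) (hp : IsPath G W l p) (hl : 1 ≤ l)
    (hcard : l < W.card) : ∃ k0, k0 < l ∧ ∃ w ∈ W, (∀ k, k < l → p k ≠ w) ∧ G.Adj (p k0) w := by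
  have hsub : (range l).image p ⊆ W := by
    intro v hv
    rw [mem_image] at hv
    obtain ⟨i, hi, rfl⟩ := hv
    exact hp.1 i (by simpa using hi)
  have hne : (range l).image p ≠ W := by
    intro h
    have h1 : ((range l).image p).card ≤ l := by
      calc ((range l).image p).card ≤ (range l).card := card_image_le
        _ = l := card_range l
    rw [h] at h1
    omega
  obtain ⟨u, hu, v, hv, huv⟩ := hW.2 _ hsub ⟨p 0, by rw [mem_image]; exact ⟨0, by rw [mem_range]; omega, rfl⟩⟩ hne
  rw [mem_image] at hu
  obtain ⟨k0, hk0, rfl⟩ := hu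
  rw [mem_sdiff] at hv
  refine ⟨k0, by simpa using hk0, v, hv.1, ?_, huv⟩
  intro k hk hkv
  exact hv.2 (by rw [mem_image]; exact ⟨k, by simpa using hk, hkv⟩)

variable (side : V → Bool)

/-- Even case. -/
lemma reduce_even (hside : ∀ u v, G.Adj u v → side u ≠ side v) (W : Finset V) (hW : Conn G W)
    (c : ℕ) (hc : 1 ≤ c) (p : ℕ → V) (hp : Longest G W (2*c) p) (hcard : 2 * c < W.card) :
    side (p 0) ≠ side (p (2*c-1)) ∧ ¬ G.Adj (p 0) (p (2*c-1)) ∧
      dg G W (p 0) + dg G W (p (2*c-1)) ≤ c ∧ Conn G ((W.erase (p 0)).erase (p (2*c-1))) := by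
  obtain ⟨k0, hk0, w, hw, hwp, hkw⟩ := leaving G W hW (2*c) p hp.1 (by omega) hcard
  have hcross : ∀ i, i + 1 < 2*c → G.Adj (p 0) (p (i+1)) → G.Adj (p (2*c-1)) (p i) → False :=
    fun i hi h1 h2 => crossing G W (2*c) p hp i hi h1 h2 w hw hwp k0 hk0 hkw
  have hsp := side_path G side hside W (2*c) p hp.1
  refine ⟨?_, ?_, ?_, ?_⟩
  · intro h
    have := (hsp (2*c-1) (by omega)).1 h.symm
    omega
  · intro h
    have h2 := hp.1.2.2 (2*c-2) (by omega)
    rw [show 2*c-2+1 = 2*c-1 by omega] at h2
    exact hcross (2*c-2) (by omega) (by rw [show 2*c-2+1 = 2*c-1 by omega]; exact h) h2.symm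
  · have h1 := dg_first G W (2*c) p hp (by omega)
    have h2 := dg_last G W (2*c) p hp (by omega)
    set J := (range (2*c-1)).filter (fun i => G.Adj (p 0) (p (i+1))) with hJ
    set K := (range (2*c-1)).filter (fun i => G.Adj (p (2*c-1)) (p i)) with hK
    have hdis : Disjoint J K := by
      rw [Finset.disjoint_left]
      intro i hi hi'
      rw [hJ, mem_filter, mem_range] at hi
      rw [hK, mem_filter, mem_range] at hi'
      exact hcross i (by omega) hi.2 hi'.2
    have hu : (J ∪ K).card ≤ c := by
      apply evens_card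
      intro i hi
      rw [mem_union, hJ, hK, mem_filter, mem_filter, mem_range] at hi
      rcases hi with ⟨hi, hadj⟩ | ⟨hi, hadj⟩
      · refine ⟨by omega, ?_⟩
        have h3 := hside _ _ hadj
        have h4 := hsp (i+1) (by omega)
        have h5 : ¬ ((i+1) % 2 = 0) := fun h => h3 (h4.2 h).symm
        omega
      · refine ⟨by omega, ?_⟩
        have h3 := hside _ _ hadj
        have h4 := hsp i (by omega)
        have h5 := hsp (2*c-1) (by omega)
        have h6 : ¬ (side (p (2*c-1)) = side (p 0)) := by rw [h5]; omega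
        rw [← h4]
        revert h3 h6
        cases side (p i) <;> cases side (p (2*c-1)) <;> cases side (p 0) <;> simp
    rw [card_union_of_disjoint hdis] at hu
    omega
  · -- connectivity
    have hw0 : w ≠ p 0 := fun h => hwp 0 (by omega) h.symm
    have hwl : w ≠ p (2*c-1) := fun h => hwp (2*c-1) (by omega) h.symm
    refine ⟨⟨w, by simp [hw, hw0, hwl]⟩, ?_⟩
    intro T hT hTne hTneq
    by_contra hcon
    push Not at hcon
    obtain ⟨Z, hZ, hZne, hZp, hZno⟩ := cut_aux G ((W.erase (p 0)).erase (p (2*c-1))) T hT hTne hTneq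
      p 1 (2*c-1) (by
        intro i hi1 hi2
        rw [mem_erase, mem_erase]
        refine ⟨?_, ?_, hp.1.1 i (by omega)⟩
        · intro h; have := hp.1.2.1 _ _ (by omega) (by omega) h; omega
        · intro h; have := hp.1.2.1 _ _ (by omega) (by omega) h; omega)
      (fun i _ hi2 => hp.1.2.2 i (by omega)) hcon
    have hZP : ∀ u ∈ Z, ∀ k, k < 2*c → p k ≠ u := by
      intro u hu k hk hku
      have h1 := hZ hu
      rw [mem_erase, mem_erase] at h1
      by_cases hk0 : k = 0
      · subst hk0; exact h1.2.1 hku.symm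
      · by_cases hkl : k = 2*c-1
        · subst hkl; exact h1.1 hku.symm
        · exact hZp k (by omega) (by omega) (hku ▸ hu)
    have hZW : Z ⊆ W := fun u hu => (mem_of_mem_erase (mem_of_mem_erase (hZ hu)))
    obtain ⟨u, hu, v, hv, huv⟩ := hW.2 Z hZW hZne (by
      rintro rfl
      exact hZP (p 0) (hp.1.1 0 (by omega)) 0 (by omega) rfl)
    rw [mem_sdiff] at hv
    by_cases h0 : v = p 0
    · subst h0
      obtain ⟨i, hi, hi'⟩ := nbr_first G W (2*c) p hp (by omega) u (hZW hu) huv.symm
      exact hZP u hu i hi hi'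
    · by_cases h1 : v = p (2*c-1)
      · subst h1
        obtain ⟨i, hi, hi'⟩ := nbr_last G W (2*c) p hp (by omega) u (hZW hu) huv.symm
        exact hZP u hu i hi hi'
      · exact hZno u hu v (by rw [mem_sdiff, mem_erase, mem_erase]; exact ⟨⟨h1, h0, hv.1⟩, hv.2⟩) huv

/-- Odd case. -/
lemma reduce_odd (hside : ∀ u v, G.Adj u v → side u ≠ side v) (W : Finset V) (hW : Conn G W)
    (p : ℕ → V) (hbal : cnt side (side (p 0)) W = 0)
    (c : ℕ) (hc : 1 ≤ c) (hp : Longest G W (2*c+1) p) (hcard : 2 * c + 1 < W.card) :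
    ∃ a ∈ W, side a ≠ side (p 0) ∧ ¬ G.Adj (p 0) a ∧
      dg G W (p 0) + dg G W a ≤ c ∧ Conn G ((W.erase (p 0)).erase a) := by
  have hsp := side_path G side hside W (2*c+1) p hp.1
  set τ := side (p 0) with hτ
  set σ := !τ with hσ
  set P : Finset V := (range (2*c+1)).image p with hP
  have hPW : P ⊆ W := by
    intro v hv
    rw [hP, mem_image] at hv
    obtain ⟨i, hi, rfl⟩ := hv
    exact hp.1.1 i (by simpa using hi)
  have hmemP : ∀ v, v ∈ P ↔ ∃ i, i < 2*c+1 ∧ p i = v := by
    intro v; rw [hP, mem_image]; simp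
  -- count of P
  have hcntP : cnt side σ P = -1 := by
    have h1 : cnt side σ P = ∑ i ∈ range (2*c+1), (if i % 2 = 0 then (-1:ℤ) else 1) := by
      unfold cnt
      rw [hP, Finset.sum_image]
      · apply Finset.sum_congr rfl
        intro i hi
        rw [mem_range] at hi
        have h2 := hsp i hi
        by_cases h3 : i % 2 = 0
        · have h4 := h2.2 h3
          have h5 : ¬ (side (p i) = σ) := by rw [h4, hσ]; cases τ <;> simp
          simp [h3, h5]
        · have h4 : ¬ (side (p i) = τ) := fun h => h3 (h2.1 h)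
          have h5 : side (p i) = σ := by
            rw [hσ]; revert h4; cases side (p i) <;> cases τ <;> simp
          simp [h3, h5]
      · intro i hi j hj hij
        simp only [coe_range, Set.mem_Iio] at hi hj
        exact hp.1.2.1 i j hi hj hij
    rw [h1]
    clear h1 hcard hsp hP hmemP hPW
    have : ∀ c : ℕ, ∑ i ∈ range (2*c+1), (if i % 2 = 0 then (-1:ℤ) else 1) = -1 := by
      intro c
      induction c with
      | zero => simp
      | succ c ih =>
        rw [show 2*(c+1)+1 = 2*c+1+1+1 by ring, Finset.sum_range_succ, Finset.sum_range_succ, ih]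
        have e1 : (2*c+1) % 2 ≠ 0 := by omega
        have e2 : (2*c+1+1) % 2 = 0 := by omega
        simp [e1, e2]
    exact this c
  have hcntW : cnt side σ W = 0 := by
    have : cnt side σ W = - cnt side τ W := by
      unfold cnt
      rw [← Finset.sum_neg_distrib]
      apply Finset.sum_congr rfl
      intro v _
      rw [hσ]
      cases side v <;> cases τ <;> simp
    rw [this, hbal]; rfl
  have hout : 1 ≤ cnt side σ (W \ P) := by
    rw [cnt_sdiff side σ W P hPW, hcntP, hcntW]; norm_num
  have houtne : (W \ P).Nonempty := by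
    rw [Finset.nonempty_iff_ne_empty]
    intro h; rw [h] at hout; simp [cnt] at hout
  obtain ⟨C, hCS, hconn, hcl, hcC⟩ := peel G side σ 1 (le_refl _) _ (W \ P) rfl houtne hout
  have hCW : C ⊆ W := hCS.trans Finset.sdiff_subset
  have hCP : ∀ u ∈ C, u ∉ P := fun u hu => (mem_sdiff.1 (hCS hu)).2
  have h0P : p 0 ∈ P := (hmemP _).2 ⟨0, by omega, rfl⟩
  obtain ⟨r, hr, v, hv, hrv⟩ := hW.2 C hCW hconn.1 (by
    rintro rfl
    exact hCP (p 0) (hPW h0P) h0P)
  rw [mem_sdiff] at hv
  have hvP : v ∈ P := by
    by_contra h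
    exact hcl r hr v (by rw [mem_sdiff, mem_sdiff]; exact ⟨⟨hv.1, h⟩, hv.2⟩) hrv
  obtain ⟨i', hi', rfl⟩ := (hmemP _).1 hvP
  obtain ⟨h, z, h1, hz, hz0, hzσ, hznb, hzc⟩ := dfs G side hside σ _ C r rfl hconn hr (by
    split_ifs <;> omega)
  set a := z (h-1) with ha
  have haC : a ∈ C := hz.1 (h-1) (by omega)
  have haW : a ∈ W := hCW haC
  have hzW : IsPath G W h z := IsPath_mono G C W hCW h z hz
  have hdis : ∀ i j, i < 2*c+1 → j < h → p i ≠ z j := by
    intro i j hi hj heq
    exact hCP (z j) (hz.1 j hj) ((hmemP _).2 ⟨i, hi, heq⟩)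
  have hatt : G.Adj (z 0) (p i') := by rw [hz0]; exact hrv
  have hnotadj : ¬ G.Adj (p 0) a := by
    intro hadj
    obtain ⟨i, hi, hi2⟩ := nbr_first G W (2*c+1) p hp (by omega) a haW hadj
    exact hCP a haC ((hmemP _).2 ⟨i, hi, hi2⟩)
  have haσ : side a ≠ τ := by rw [hzσ, hσ]; cases τ <;> simp
  refine ⟨a, haW, haσ, hnotadj, ?_, ?_⟩
  · -- degrees
    have hd1 := dg_first G W (2*c+1) p hp (by omega)
    set J := (range (2*c+1-1)).filter (fun i => G.Adj (p 0) (p (i+1))) with hJ
    set I := (range (2*c)).filter (fun i => G.Adj a (p i)) with hI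
    set Zs := (range h).filter (fun k => side (z k) ≠ σ) with hZs
    have hIl : ∀ i, i < 2*c+1 → G.Adj a (p i) → i < 2*c := by
      intro i hi hadj
      by_contra hcon
      have : i = 2*c := by omega
      subst this
      obtain ⟨k, hk, hk2⟩ := nbr_last G W (2*c+1) p hp (by omega) a haW (by
        rw [show 2*c+1-1 = 2*c by omega]; exact hadj.symm)
      exact hCP a haC ((hmemP _).2 ⟨k, hk, hk2⟩)
    have hd2 : dg G W a ≤ I.card + Zs.card := by
      unfold dg
      have hsub : W.filter (fun u => G.Adj a u) ⊆ I.image p ∪ Zs.image z := by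
        intro u hu
        rw [mem_filter] at hu
        rw [mem_union, mem_image, mem_image]
        by_cases huP : u ∈ P
        · left
          obtain ⟨i, hi, rfl⟩ := (hmemP _).1 huP
          exact ⟨i, by rw [hI, mem_filter, mem_range]; exact ⟨hIl i hi hu.2, hu.2⟩, rfl⟩
        · right
          have huC : u ∈ C := by
            by_contra huC
            exact hcl a haC u (by rw [mem_sdiff, mem_sdiff]; exact ⟨⟨hu.1, huP⟩, huC⟩) hu.2
          obtain ⟨k, hk, hk2⟩ := hznb u huC hu.2
          refine ⟨k, ?_, hk2⟩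
          rw [hZs, mem_filter, mem_range]
          refine ⟨hk, ?_⟩
          have := hside _ _ hu.2
          rw [hk2, ← hzσ]; exact this.symm
      exact (card_le_card hsub).trans ((card_union_le _ _).trans
        (Nat.add_le_add card_image_le card_image_le))
    have hsz := side_path G side hside W h z hzW
    have hsa := hsz (h-1) (by omega)
    have hsr := hside _ _ hatt
    have hsi := hsp i' hi'
    -- parity of h and i'
    have hpar : (h % 2 = 1 ↔ i' % 2 = 0) := by
      have e1 : side (z (h-1)) = σ := hzσ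
      rw [e1] at hsa
      have e2 : (side (z 0) = σ ↔ side (p i') = τ) := by
        rw [hσ]; revert hsr
        cases side (z 0) <;> cases side (p i') <;> cases τ <;> simp
      have e3 : (σ = side (z 0) ↔ side (z 0) = σ) := eq_comm
      rw [← hsi, ← e2, ← e3, hsa]
      omega
    have hZcard : Zs.card ≤ h / 2 := by
      have hZpar : ∀ k ∈ Zs, k < h ∧ (k + h) % 2 = 0 := by
        intro k hk
        rw [hZs, mem_filter, mem_range] at hk
        refine ⟨hk.1, ?_⟩
        have e1 := hsz k hk.1
        have e2 : side (z (h-1)) = σ := hzσ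
        rw [e2] at hsa
        have e3 : (side (z k) = side (z 0)) ↔ ¬ (σ = side (z 0)) := by
          have := hk.2
          revert this
          cases side (z k) <;> cases side (z 0) <;> cases σ <;> simp
        rw [hsa] at e3
        rw [e3] at e1
        omega
      have : Zs.card ≤ (range (h/2)).card := by
        apply Finset.card_le_card_of_injOn (fun i => i / 2)
        · intro i hi
          have := hZpar i hi
          simp only [coe_range, Set.mem_Iio]
          omega
        · intro i hi j hj hij
          have h2 := hZpar i hi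
          have h3 := hZpar j hj
          simp only at hij
          omega
      simpa using this
    have hab := att_bound G W (2*c+1) p hp h z hzW hdis i' hi' hatt
    -- the block
    set Blk := (range (i'+h)).filter (fun i => i' ≤ i ∧ i % 2 = 0) with hBlk
    have hBcard : h / 2 + (if i' % 2 = 0 then 1 else 0) ≤ Blk.card := by
      have himg : (range (h/2 + (if i' % 2 = 0 then 1 else 0))).image
          (fun t => i' + (i' % 2) + 2 * t) ⊆ Blk := by
        intro k hk
        rw [mem_image] at hk
        obtain ⟨t, ht, rfl⟩ := hk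
        rw [mem_range] at ht
        rw [hBlk, mem_filter, mem_range]
        split_ifs at ht with hpar2
        · have := hpar.2 hpar2
          refine ⟨by omega, by omega, by omega⟩
        · have : ¬ (h % 2 = 1) := fun h => hpar2 (hpar.1 h)
          refine ⟨by omega, by omega, by omega⟩
      have := card_le_card himg
      rw [Finset.card_image_of_injective _ (by intro x y hxy; simp only at hxy; omega), card_range] at this
      exact this
    have hIeven : ∀ i ∈ I, i < 2*c ∧ i % 2 = 0 := by
      intro i hi
      rw [hI, mem_filter, mem_range] at hi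
      refine ⟨hi.1, ?_⟩
      rw [← hsp i (by omega)]
      have := hside _ _ hi.2
      rw [hzσ] at this
      revert this
      rw [hσ]
      cases side (p i) <;> cases τ <;> simp
    have hIB : (I ∩ Blk).card ≤ (if i' % 2 = 0 then 1 else 0) := by
      have hsub : ∀ i ∈ I ∩ Blk, i = i' := by
        intro i hi
        rw [mem_inter] at hi
        obtain ⟨hiI, hiB⟩ := hi
        rw [hI, mem_filter, mem_range] at hiI
        rw [hBlk, mem_filter, mem_range] at hiB
        have ht := through G W (2*c+1) p hp h z hzW h1 hdis i i' (by omega) hi' hatt hiI.2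
        by_contra hne
        rcases Nat.lt_or_ge i i' with hlt | hge
        · omega
        · have := ht.2 (by omega)
          omega
      split_ifs with hpar2
      · rw [Finset.card_le_one]
        intro x hx y hy
        rw [hsub x hx, hsub y hy]
      · rw [Nat.le_zero, Finset.card_eq_zero]
        by_contra hne
        obtain ⟨x, hx⟩ := Finset.nonempty_iff_ne_empty.2 hne
        have e1 := hsub x hx
        rw [mem_inter] at hx
        have e2 := hIeven x hx.1
        rw [e1] at e2
        exact hpar2 e2.2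
    have hJI : Disjoint J (I ∪ Blk) := by
      rw [Finset.disjoint_left]
      intro j hj hj'
      rw [hJ, mem_filter, mem_range] at hj
      rw [mem_union] at hj'
      rcases hj' with hjI | hjB
      · rw [hI, mem_filter, mem_range] at hjI
        have hone : IsPath G W 1 (fun _ => a) := IsPath_single G W a haW
        have := excl G W (2*c+1) p hp 1 (fun _ => a) hone (le_refl _)
          (fun i _ hi _ heq => hCP a haC ((hmemP _).2 ⟨i, hi, heq⟩)) j j (by omega) hjI.2
          (by omega) (le_refl _) hj.2
        omega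
      · rw [hBlk, mem_filter, mem_range] at hjB
        have := excl G W (2*c+1) p hp h z hzW h1 hdis i' j hi' hatt (by omega) hjB.2.1 hj.2
        omega
    have hall : (J ∪ (I ∪ Blk)).card ≤ c := by
      apply evens_card
      intro i hi
      rw [mem_union, mem_union] at hi
      rcases hi with hi | hi | hi
      · rw [hJ, mem_filter, mem_range] at hi
        refine ⟨by omega, ?_⟩
        have h3 := hside _ _ hi.2
        have h4 := hsp (i+1) (by omega)
        have h5 : ¬ ((i+1) % 2 = 0) := fun h => h3 (h4.2 h).symm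
        omega
      · exact hIeven i hi
      · rw [hBlk, mem_filter, mem_range] at hi
        exact ⟨by omega, hi.2.2⟩
    rw [card_union_of_disjoint hJI] at hall
    have huni := Finset.card_union_add_card_inter I Blk
    omega
  · -- connectivity
    have hane : a ≠ p 0 := fun heq => hCP a haC (heq ▸ h0P)
    have hp1 : p 1 ∈ (W.erase (p 0)).erase a := by
      rw [mem_erase, mem_erase]
      refine ⟨?_, ?_, hp.1.1 1 (by omega)⟩
      · intro heq; exact hCP a haC ((hmemP _).2 ⟨1, by omega, heq⟩)
      · intro heq; have := hp.1.2.1 _ _ (by omega) (by omega) heq; omega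
    refine ⟨⟨p 1, hp1⟩, ?_⟩
    intro T hT hTne hTneq
    by_contra hcon
    push Not at hcon
    obtain ⟨Z, hZ, hZne, hZp, hZno⟩ := cut_aux G ((W.erase (p 0)).erase a) T hT hTne hTneq
      p 1 (2*c+1) (by
        intro i hi1 hi2
        rw [mem_erase, mem_erase]
        refine ⟨?_, ?_, hp.1.1 i (by omega)⟩
        · intro heq; exact hCP a haC ((hmemP _).2 ⟨i, by omega, heq⟩)
        · intro heq; have := hp.1.2.1 _ _ (by omega) (by omega) heq; omega)
      (fun i _ hi2 => hp.1.2.2 i (by omega)) hcon
    have hZP : ∀ u ∈ Z, u ∉ P := by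
      intro u hu huP
      obtain ⟨k, hk, hku⟩ := (hmemP _).1 huP
      have h1 := hZ hu
      rw [mem_erase, mem_erase] at h1
      by_cases hk0 : k = 0
      · subst hk0; exact h1.2.1 hku.symm
      · exact hZp k (by omega) (by omega) (hku ▸ hu)
    have hZW : Z ⊆ W := fun u hu => (mem_of_mem_erase (mem_of_mem_erase (hZ hu)))
    have haZ : a ∉ Z := fun h => by have := hZ h; simp at this
    obtain ⟨u, hu, v, hv2, huv⟩ := hW.2 Z hZW hZne (by
      rintro rfl
      exact haZ haW)
    rw [mem_sdiff] at hv2
    by_cases h0 : v = p 0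
    · subst h0
      obtain ⟨i, hi, hi2⟩ := nbr_first G W (2*c+1) p hp (by omega) u (hZW hu) huv.symm
      exact hZP u hu ((hmemP _).2 ⟨i, hi, hi2⟩)
    · by_cases hva : v = a
      · subst hva
        have huC : u ∈ C := by
          by_contra huC
          exact hcl a haC u (by rw [mem_sdiff, mem_sdiff]; exact ⟨⟨hZW hu, hZP u hu⟩, huC⟩) huv.symm
        have hua : u ≠ a := fun h => haZ (h ▸ hu)
        rcases hzc with hzc | ⟨hzc, hne'⟩
        · rw [hzc, mem_singleton] at huC
          exact hua huC
        · have hsubZ : C.erase a ⊆ Z := by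
            by_contra hns
            obtain ⟨x, hx, y, hy, hxy⟩ := hzc.2 ((C.erase a) ∩ Z) Finset.inter_subset_left
              ⟨u, by rw [mem_inter, mem_erase]; exact ⟨⟨hua, huC⟩, hu⟩⟩
              (by intro heq; exact hns (by rw [← heq]; exact Finset.inter_subset_right))
            rw [mem_inter] at hx
            rw [mem_sdiff, mem_inter] at hy
            refine hZno x hx.2 y ?_ hxy
            rw [mem_sdiff, mem_erase, mem_erase]
            have hyC := mem_of_mem_erase hy.1
            refine ⟨⟨(mem_erase.1 hy.1).1, ?_, hCW hyC⟩, fun h => hy.2 ⟨hy.1, h⟩⟩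
            intro heq; exact hCP y hyC (heq ▸ h0P)
          have hrZ : r ∈ Z := hsubZ (by rw [mem_erase]; exact ⟨hne'.symm, hr⟩)
          by_cases hi0 : i' = 0
          · subst hi0
            obtain ⟨i, hi, hi2⟩ := nbr_first G W (2*c+1) p hp (by omega) r (hZW hrZ) hrv.symm
            exact hZP r hrZ ((hmemP _).2 ⟨i, hi, hi2⟩)
          · refine hZno r hrZ (p i') ?_ hrv
            rw [mem_sdiff, mem_erase, mem_erase]
            refine ⟨⟨?_, ?_, hp.1.1 i' hi'⟩, hZp i' (by omega) hi'⟩
            · intro heq; exact hCP a haC ((hmemP _).2 ⟨i', hi', heq⟩)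
            · intro heq; have := hp.1.2.1 _ _ (by omega) (by omega) heq; omega
      · exact hZno u hu v (by rw [mem_sdiff, mem_erase, mem_erase]; exact ⟨⟨hva, h0, hv2.1⟩, hv2.2⟩) huv

end H44BP
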